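import Mathlib
import Pool.Agent.N990.PT.Stm

/-!
# Project PT (helper990), part CNS (helper195): consistency in the infinite lattice
(adapted from `Pool.Agent.N371.EJ.CNS`)
-/

set_option autoImplicit false

open MeasureTheory
open Pool.Agent.N988.EA Pool.Agent.N990.PT

namespace Pool.Agent.N195.PT

theorem t_cns (h1 : Pool.Agent.N990.PT.S_FIN) (h2 : Pool.Agent.N990.PT.S_GEO) :
    Pool.Agent.N990.PT.S_CNS := by
  intro b q β p n f ω
  obtain ⟨-, hemb, hinj, -, hrepl, hcomp, -, -⟩ := h2 b q p
  have hends : ∀ (s : Vert b (n + 1) → Fin q) (x : Pt b (n + 1)),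
      repl p (n + 1) ω s (inc p (n + 1) x) =
        (Sum.elim (ends p (n + 1) ω) s : Pt b (n + 1) → Fin q) x := by
    intro s x
    rcases x with t | y
    · have h3 : ∀ x, inc p (n + 1) (.inr x) ≠ inc p (n + 1) (.inl t) := by
        intro x hx
        have h4 := hinj (n + 1) hx
        cases h4
      exact (hrepl (n + 1) ω s).2 _ h3
    · exact (hrepl (n + 1) ω s).1 y
  have h3 := h1 b q β n (p n) (ends p (n + 1) ω) (fun s => f (repl p (n + 1) ω s))
  unfold GG
  refine Eq.trans ?_ h3.symm
  refine Finset.sum_congr rfl fun s _ => ?_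
  congr 1
  refine Finset.sum_congr rfl fun s' _ => ?_
  have e2 : ends p n (repl p (n + 1) ω s) =
      (fun t => (Sum.elim (ends p (n + 1) ω) s : Pt b (n + 1) → Fin q)
        (emb (p n).1 (p n).2 (.inl t))) := by
    funext t
    rw [← hends, hemb]
    rfl
  show gw β n (ends p n (repl p (n + 1) ω s)) s' * f (repl p n (repl p (n + 1) ω s) s') = _
  rw [e2, hcomp]

end Pool.Agent.N195.PT
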